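import Mathlib

/-!
# Project VN: volumetric weak epsilon-nets (row MP_a20b56_co): definitions
-/

set_option autoImplicit false

namespace Pool.Agent.Q165.VN

open MeasureTheory

/-- `S` is a weak `ε`-net with sets of volume `v` for the finite family `F`: all members of `S` have
volume `v`, and the convex hull of (the union of) every subfamily with at least `ε |F|` members
contains a member of `S`. -/
def IsNet {d : ℕ} {ι : Type} [Fintype ι] (F : ι → Set (Fin d → ℝ)) (ε v : ℝ)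
    (S : Finset (Set (Fin d → ℝ))) : Prop :=
  (∀ s ∈ S, volume s = ENNReal.ofReal v) ∧
    ∀ G : Finset ι, ε * Fintype.card ι ≤ G.card → ∃ s ∈ S, s ⊆ convexHull ℝ (⋃ i ∈ G, F i)

/-- The exponent `α` is admissible in dimension `d`: for some `v > 0` and `C`, for all `ε ∈ (0, 1]`
every non-empty finite family of convex sets of volume `1` in `ℝ^d` has a weak `ε`-net with at most
`C ε^(-α)` sets of volume `v`. -/
def Admissible (d : ℕ) (α : ℝ) : Prop :=
  ∃ v C : ℝ, 0 < v ∧ ∀ ε : ℝ, 0 < ε → ε ≤ 1 →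
    ∀ (ι : Type) [Fintype ι] [Nonempty ι] (F : ι → Set (Fin d → ℝ)),
      (∀ i, Convex ℝ (F i)) → (∀ i, volume (F i) = 1) →
      ∃ S : Finset (Set (Fin d → ℝ)), IsNet F ε v S ∧ (S.card : ℝ) ≤ C * ε ^ (-α)

/-! ## The planar part -/

/-- parameters of a parallelogram with two vertical sides: centre `(cx, cy)`, half width `w`, half
height `h`; the middle line joins `(cx - w, cy - s)` and `(cx + w, cy + s)` -/
structure P5 where
  cx : ℝ
  cy : ℝ
  w : ℝ
  s : ℝ
  h : ℝ

/-- the parallelogram -/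
def par (q : P5) : Set (ℝ × ℝ) :=
  {p | ∃ a b : ℝ, |a| ≤ 1 ∧ |b| ≤ 1 ∧ p = (q.cx + a * q.w, q.cy + a * q.s + b * q.h)}

/-- the parallelogram is not degenerate and its area is at least `4/100` -/
def P5.Good (q : P5) : Prop := 0 < q.w ∧ 0 < q.h ∧ 1 / 100 ≤ q.w * q.h

/-- small parallelograms of area `1/9000000` (the members of the nets); in the coordinates
`U = Z * X`, `V = (y - p0 - κ0 * X) / Z`, `X = 100 (x - m)`, it is the square
`[u, u + 1/300] × [v, v + 1/300]` -/
def cell (m p0 κ0 Z u v : ℝ) : Set (ℝ × ℝ) :=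
  {q | u ≤ Z * (100 * (q.1 - m)) ∧ Z * (100 * (q.1 - m)) ≤ u + 1 / 300 ∧
    v ≤ (q.2 - p0 - κ0 * (100 * (q.1 - m))) / Z ∧
    (q.2 - p0 - κ0 * (100 * (q.1 - m))) / Z ≤ v + 1 / 300}

/-- `s` is one of the small parallelograms -/
def IsCell (s : Set (ℝ × ℝ)) : Prop :=
  ∃ m p0 κ0 Z u v : ℝ, 0 < Z ∧ s = cell m p0 κ0 Z u v

/-- `S` is a net of cells for the family of the parallelograms `par (q i)` and all subfamilies with
at least `τ` members -/
def CellNet {ι : Type} (q : ι → P5) (τ : ℝ) (S : Finset (Set (ℝ × ℝ))) : Prop :=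
  (∀ s ∈ S, IsCell s) ∧
    ∀ G : Finset ι, τ ≤ G.card → ∃ s ∈ S, s ⊆ convexHull ℝ (⋃ i ∈ G, par (q i))

end Pool.Agent.Q165.VN
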