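import Pool.Agent.Q165.VN.Stm

/-!
# Project VN: the hull of two parallelograms centred on a vertical line contains a cell
-/

set_option autoImplicit false

namespace Pool.Agent.Q165.VN

/-- the parallelogram with the middle line `y = p + κ X`, `|X| ≤ 1 / z`, `X = 100 (x - m)`, and half
height `z` -/
def nset (m p κ z : ℝ) : Set (ℝ × ℝ) :=
  {q | |100 * (q.1 - m)| * z ≤ 1 ∧ |q.2 - p - κ * (100 * (q.1 - m))| ≤ z}

theorem mem_nset (m p κ z X Y : ℝ) :
    ((m + X / 100, Y) : ℝ × ℝ) ∈ nset m p κ z ↔ |X| * z ≤ 1 ∧ |Y - p - κ * X| ≤ z := by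
  have h : 100 * (m + X / 100 - m) = X := by ring
  simp only [nset, Set.mem_ofPred_eq, h]

theorem nset_subset_par (q : P5) (hq : q.Good) :
    nset q.cx q.cy (q.s * (1 / (100 * q.w))) (1 / (100 * q.w)) ⊆ par q := by
  obtain ⟨hw, hh, hwh⟩ := hq
  rintro ⟨x, y⟩ ⟨h1, h2⟩
  simp only at h1 h2
  have hz : 0 < 1 / (100 * q.w) := by positivity
  have e1 : 100 * (x - q.cx) * (1 / (100 * q.w)) = (x - q.cx) / q.w := by
    field_simp
  have hzh : 1 / (100 * q.w) ≤ q.h := by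
    rw [div_le_iff₀ (by positivity)]
    nlinarith
  refine ⟨(x - q.cx) / q.w, (y - q.cy - (x - q.cx) / q.w * q.s) / q.h, ?_, ?_, ?_⟩
  · rw [← e1, abs_mul, abs_of_pos hz]
    exact h1
  · rw [abs_div, abs_of_pos hh, div_le_one hh]
    refine le_trans ?_ hzh
    have e2 : q.s * (1 / (100 * q.w)) * (100 * (x - q.cx)) = (x - q.cx) / q.w * q.s := by
      rw [← e1]
      ring
    rw [e2] at h2
    exact h2
  · ext
    · simp only
      field_simp
      ring
    · simp only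
      field_simp
      ring

theorem conv3 {H : Set (ℝ × ℝ)} (hH : Convex ℝ H) {A B C : ℝ × ℝ} (hA : A ∈ H) (hB : B ∈ H)
    (hC : C ∈ H) {a b c : ℝ} (ha : 0 ≤ a) (hb : 0 ≤ b) (hc : 0 ≤ c) (h : a + b + c = 1) :
    a • A + b • B + c • C ∈ H := by
  rcases eq_or_lt_of_le (add_nonneg ha hb) with h0 | h0
  · have ha0 : a = 0 := by linarith
    have hb0 : b = 0 := by linarith
    have hc1 : c = 1 := by linarith
    rw [ha0, hb0, hc1, zero_smul, zero_smul, one_smul, zero_add, zero_add]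
    exact hC
  · have h1 := hH hA hB (div_nonneg ha h0.le) (div_nonneg hb h0.le) (by field_simp)
    have h2 := hH h1 hC h0.le hc (by linarith)
    rw [smul_add, smul_smul, smul_smul, mul_div_cancel₀ _ h0.ne', mul_div_cancel₀ _ h0.ne'] at h2
    exact h2

theorem apex (m Z p1 κ1 z1 p2 κ2 z2 : ℝ) (hZ : 0 < Z) (hz1 : 0 < z1) (hz2 : 0 < z2)
    (hor : Z ≤ 4 * z1 ∨ Z ≤ 4 * z2 ∨ Z ≤ 12 * |p1 - p2| ∨ Z ^ 2 ≤ 48 * |κ1 - κ2|) :
    ∃ X0 Y0 : ℝ, |X0| ≤ 1 / Z ∧
      ((m + X0 / 100, Y0) : ℝ × ℝ) ∈ nset m p1 κ1 z1 ∪ nset m p2 κ2 z2 ∧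
      Z / 48 ≤ |Y0 - (p1 + κ1 * X0)| := by
  have hZ1 : 0 < 1 / Z := by positivity
  by_cases hb : Z ≤ 4 * z2
  · rcases le_total p1 p2 with h | h
    · refine ⟨0, p2 + z2, by simpa using hZ1.le, Or.inr ?_, ?_⟩
      · rw [mem_nset]
        constructor
        · simp
        · have : p2 + z2 - p2 - κ2 * 0 = z2 := by ring
          rw [this, abs_of_pos hz2]
      · rw [le_abs]
        left
        linarith
    · refine ⟨0, p2 - z2, by simpa using hZ1.le, Or.inr ?_, ?_⟩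
      · rw [mem_nset]
        constructor
        · simp
        · have : p2 - z2 - p2 - κ2 * 0 = -z2 := by ring
          rw [this, abs_neg, abs_of_pos hz2]
      · rw [le_abs]
        right
        linarith
  push Not at hb
  rcases hor with h | h | h | h
  · refine ⟨0, p1 + z1, by simpa using hZ1.le, Or.inl ?_, ?_⟩
    · rw [mem_nset]
      constructor
      · simp
      · have : p1 + z1 - p1 - κ1 * 0 = z1 := by ring
        rw [this, abs_of_pos hz1]
    · rw [le_abs]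
      left
      linarith
  · exact absurd h (not_le.2 hb)
  · refine ⟨0, p2, by simpa using hZ1.le, Or.inr ?_, ?_⟩
    · rw [mem_nset]
      constructor
      · simp
      · have : p2 - p2 - κ2 * 0 = 0 := by ring
        rw [this, abs_zero]
        exact hz2.le
    · have : p2 - (p1 + κ1 * 0) = -(p1 - p2) := by ring
      rw [this, abs_neg]
      linarith
  · have hzZ : 1 / Z * z2 ≤ 1 := by
      rw [one_div, inv_mul_le_iff₀ hZ]
      linarith
    have hD : ∀ t : ℝ, |t| = 1 → 0 ≤ (p2 - p1) * ((κ2 - κ1) * t) →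
        Z / 48 ≤ |p2 + κ2 * (t / Z) - (p1 + κ1 * (t / Z))| := by
      intro t ht hs
      have e : p2 + κ2 * (t / Z) - (p1 + κ1 * (t / Z)) = (p2 - p1) + (κ2 - κ1) * t / Z := by
        ring
      have hs' : 0 ≤ (p2 - p1) * ((κ2 - κ1) * t / Z) := by
        have : (p2 - p1) * ((κ2 - κ1) * t / Z) = (p2 - p1) * ((κ2 - κ1) * t) / Z := by ring
        rw [this]
        positivity
      have h1 : |(κ2 - κ1) * t / Z| ≤ |(p2 - p1) + (κ2 - κ1) * t / Z| := by
        apply sq_le_sq.1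
        nlinarith [sq_nonneg (p2 - p1)]
      have h2 : |(κ2 - κ1) * t / Z| = |κ1 - κ2| / Z := by
        rw [abs_div, abs_mul, ht, mul_one, abs_of_pos hZ, abs_sub_comm]
      rw [e]
      refine le_trans ?_ h1
      rw [h2, le_div_iff₀ hZ]
      nlinarith
    have hmem : ∀ t : ℝ, |t| = 1 →
        ((m + (t / Z) / 100, p2 + κ2 * (t / Z)) : ℝ × ℝ) ∈ nset m p2 κ2 z2 := by
      intro t ht
      rw [mem_nset]
      constructor
      · rw [abs_div, ht, abs_of_pos hZ]
        exact hzZ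
      · have : p2 + κ2 * (t / Z) - p2 - κ2 * (t / Z) = 0 := by ring
        rw [this, abs_zero]
        exact hz2.le
    have habs : ∀ t : ℝ, |t| = 1 → |t / Z| ≤ 1 / Z := by
      intro t ht
      rw [abs_div, ht, abs_of_pos hZ]
    rcases le_total 0 ((p2 - p1) * (κ2 - κ1)) with hs | hs
    · exact ⟨1 / Z, _, habs 1 (by simp), Or.inr (hmem 1 (by simp)), hD 1 (by simp) (by linarith)⟩
    · exact ⟨(-1) / Z, _, habs (-1) (by simp), Or.inr (hmem (-1) (by simp)),
        hD (-1) (by simp) (by linarith)⟩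

theorem hull (m p0 κ0 Z p1 κ1 z1 p2 κ2 z2 : ℝ) (hZ : 0 < Z) (hz1 : 0 < z1) (hz2 : 0 < z2)
    (h1 : z1 ≤ Z) (ha : p0 ≤ p1) (ha' : p1 ≤ p0 + Z) (hb : κ0 ≤ κ1) (hb' : κ1 ≤ κ0 + Z ^ 2)
    (hor : Z ≤ 4 * z1 ∨ Z ≤ 4 * z2 ∨ Z ≤ 12 * |p1 - p2| ∨ Z ^ 2 ≤ 48 * |κ1 - κ2|) :
    ∃ i j : ℤ, |i| ≤ 301 ∧ |j| ≤ 601 ∧ cell m p0 κ0 Z (i / 300) (j / 300) ⊆
      convexHull ℝ (nset m p1 κ1 z1 ∪ nset m p2 κ2 z2) := by
  obtain ⟨X0, Y0, hX0, hmem, hD⟩ := apex m Z p1 κ1 z1 p2 κ2 z2 hZ hz1 hz2 hor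
  set H := convexHull ℝ (nset m p1 κ1 z1 ∪ nset m p2 κ2 z2) with hH
  have hconv : Convex ℝ H := convex_convexHull ℝ _
  set D := Y0 - (p1 + κ1 * X0) with hDdef
  have hDpos : 0 < |D| := lt_of_lt_of_le (by positivity) hD
  -- the points of the middle line
  have hline : ∀ X : ℝ, |X| ≤ 1 / Z → ((m + X / 100, p1 + κ1 * X) : ℝ × ℝ) ∈ H := by
    intro X hX
    apply subset_convexHull
    left
    rw [mem_nset]
    constructor
    · calc |X| * z1 ≤ 1 / Z * Z := by
            apply mul_le_mul hX h1 hz1.le (by positivity)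
        _ = 1 := by field_simp
    · have : p1 + κ1 * X - p1 - κ1 * X = 0 := by ring
      rw [this, abs_zero]
      exact hz1.le
  have hE : ((m + X0 / 100, Y0) : ℝ × ℝ) ∈ H := subset_convexHull ℝ _ hmem
  -- the contracted apex
  obtain ⟨μ, hμ⟩ : ∃ μ, μ = Z / (48 * |D|) := ⟨_, rfl⟩
  have hμ0 : 0 < μ := by rw [hμ]; positivity
  have hμ1 : μ ≤ 1 := by
    rw [hμ, div_le_one (by positivity)]
    linarith
  obtain ⟨s, hs, hμD⟩ : ∃ s : ℝ, |s| = 1 ∧ μ * D = s * (Z / 48) := by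
    rcases abs_cases D with ⟨h2, h3⟩ | ⟨h2, h3⟩
    · refine ⟨1, by simp, ?_⟩
      have hD0 : D ≠ 0 := by
        intro h
        rw [h] at hDpos
        simp at hDpos
      rw [hμ, h2]
      field_simp
    · refine ⟨-1, by simp, ?_⟩
      have hD0 : D ≠ 0 := by
        intro h
        rw [h] at hDpos
        simp at hDpos
      rw [hμ, h2]
      field_simp
  have hP : ((m + (μ * X0) / 100, p1 + κ1 * (μ * X0) + μ * D) : ℝ × ℝ) ∈ H := by
    have h3 := hconv (hline 0 (by simpa using (by positivity : (0 : ℝ) ≤ 1 / Z))) hE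
      (show (0 : ℝ) ≤ 1 - μ by linarith) hμ0.le (by ring)
    rw [Prod.smul_mk, Prod.smul_mk, Prod.mk_add_mk] at h3
    have e1 : (1 - μ) • (m + 0 / 100) + μ • (m + X0 / 100) = m + (μ * X0) / 100 := by
      rw [smul_eq_mul, smul_eq_mul]
      ring
    have e2 : (1 - μ) • (p1 + κ1 * 0) + μ • Y0 = p1 + κ1 * (μ * X0) + μ * D := by
      rw [smul_eq_mul, smul_eq_mul, hDdef]
      ring
    rw [e1, e2] at h3
    exact h3
  set U' := Z * (μ * X0) with hU'
  have hU'1 : |U'| ≤ 1 := by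
    rw [hU', abs_mul, abs_mul, abs_of_pos hZ, abs_of_pos hμ0]
    calc Z * (μ * |X0|) ≤ Z * (1 * (1 / Z)) := by
          apply mul_le_mul_of_nonneg_left _ hZ.le
          exact mul_le_mul hμ1 hX0 (abs_nonneg _) (by norm_num)
      _ = 1 := by field_simp
  set α := (p1 - p0) / Z with hα
  set β := (κ1 - κ0) / Z ^ 2 with hβ
  have hα0 : 0 ≤ α := div_nonneg (by linarith) hZ.le
  have hα1 : α ≤ 1 := by rw [hα, div_le_one hZ]; linarith
  have hβ0 : 0 ≤ β := div_nonneg (by linarith) (by positivity)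
  have hβ1 : β ≤ 1 := by rw [hβ, div_le_one (by positivity)]; linarith
  set Uc := U' / 3 with hUc
  set Vc := α + β * (U' / 3) + s / 144 with hVc
  obtain ⟨hU'l, hU'r⟩ := abs_le.1 hU'1
  have hβU : |β * (U' / 3)| ≤ 1 / 3 := by
    rw [abs_mul, abs_of_nonneg hβ0, abs_div]
    have : |(3 : ℝ)| = 3 := by norm_num
    rw [this]
    nlinarith [abs_nonneg U']
  obtain ⟨hβUl, hβUr⟩ := abs_le.1 hβU
  obtain ⟨hsl, hsr⟩ := abs_le.1 hs.le
  refine ⟨⌊300 * Uc⌋, ⌊300 * Vc⌋, ?_, ?_, ?_⟩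
  · rw [abs_le]
    constructor
    · apply Int.le_floor.2
      push_cast
      rw [hUc]
      linarith
    · have h3 : ((⌊300 * Uc⌋ : ℤ) : ℝ) ≤ 300 * Uc := Int.floor_le _
      have h4 : ((⌊300 * Uc⌋ : ℤ) : ℝ) ≤ ((301 : ℤ) : ℝ) := by
        push_cast
        rw [hUc] at h3 ⊢
        linarith
      exact_mod_cast h4
  · rw [abs_le]
    constructor
    · apply Int.le_floor.2
      push_cast
      rw [hVc]
      linarith
    · have h3 : ((⌊300 * Vc⌋ : ℤ) : ℝ) ≤ 300 * Vc := Int.floor_le _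
      have h4 : ((⌊300 * Vc⌋ : ℤ) : ℝ) ≤ ((601 : ℤ) : ℝ) := by
        push_cast
        rw [hVc] at h3 ⊢
        linarith
      exact_mod_cast h4
  · rintro ⟨x, y⟩ ⟨hu1, hu2, hv1, hv2⟩
    simp only at hu1 hu2 hv1 hv2
    set X := 100 * (x - m) with hX
    set U := Z * X with hU
    set V := (y - p0 - κ0 * X) / Z with hV
    have hfU1 : ((⌊300 * Uc⌋ : ℤ) : ℝ) ≤ 300 * Uc := Int.floor_le _
    have hfU2 : 300 * Uc < ((⌊300 * Uc⌋ : ℤ) : ℝ) + 1 := Int.lt_floor_add_one _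
    have hfV1 : ((⌊300 * Vc⌋ : ℤ) : ℝ) ≤ 300 * Vc := Int.floor_le _
    have hfV2 : 300 * Vc < ((⌊300 * Vc⌋ : ℤ) : ℝ) + 1 := Int.lt_floor_add_one _
    have hdU : |U - Uc| ≤ 1 / 300 := by
      rw [abs_le]
      constructor <;> linarith
    have hdV : |V - Vc| ≤ 1 / 300 := by
      rw [abs_le]
      constructor <;> linarith
    -- the weight of the apex
    set t := 48 * s * (V - α - β * U) with ht
    have hss : s * s = 1 := by
      rcases abs_eq (by norm_num : (0 : ℝ) ≤ 1) |>.1 hs with h | h <;> rw [h] <;> norm_num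
    have htc : t - 1 / 3 = 48 * s * ((V - Vc) - β * (U - Uc)) := by
      rw [ht, hVc, hUc]
      linear_combination (1 / 3 : ℝ) * hss
    have ht1 : |t - 1 / 3| ≤ 32 / 100 := by
      rw [htc, abs_mul, abs_mul, hs]
      have h5 : |(V - Vc) - β * (U - Uc)| ≤ 1 / 300 + 1 * (1 / 300) := by
        refine (abs_sub _ _).trans ?_
        apply add_le_add hdV
        rw [abs_mul, abs_of_nonneg hβ0]
        exact mul_le_mul hβ1 hdU (abs_nonneg _) (by norm_num)
      have h6 : |(48 : ℝ)| = 48 := by norm_num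
      rw [h6]
      linarith
    obtain ⟨ht2, ht3⟩ := abs_le.1 ht1
    have hUt : |U - t * U'| ≤ 1 - t := by
      have h5 : U - t * U' = (U - Uc) - (t - 1 / 3) * U' := by
        rw [hUc]
        ring
      rw [h5]
      refine (abs_sub _ _).trans ?_
      have h6 : |(t - 1 / 3) * U'| ≤ 32 / 100 := by
        rw [abs_mul]
        calc |t - 1 / 3| * |U'| ≤ 32 / 100 * 1 :=
              mul_le_mul ht1 hU'1 (abs_nonneg _) (by norm_num)
          _ = 32 / 100 := by norm_num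
      linarith
    obtain ⟨hUt1, hUt2⟩ := abs_le.1 hUt
    have hA := hline (-1 / Z) (by rw [abs_div, abs_neg, abs_one, abs_of_pos hZ])
    have hB := hline (1 / Z) (by rw [abs_div, abs_one, abs_of_pos hZ])
    have hy : y - (p1 + κ1 * X) = Z * (V - α - β * U) := by
      rw [hV, hα, hβ, hU]
      field_simp
      ring
    have hy2 : y = p1 + κ1 * X + t * (μ * D) := by
      have : t * (μ * D) = Z * (V - α - β * U) := by
        rw [hμD, ht]
        linear_combination (Z * (V - α - β * U)) * hss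
      rw [this, ← hy]
      ring
    have ht0 : 0 ≤ t := by linarith
    have h7 := conv3 hconv hA hB hP (a := (1 - t - (U - t * U')) / 2)
      (b := (1 - t + (U - t * U')) / 2) (c := t) (by linarith) (by linarith) ht0 (by ring)
    rw [Prod.smul_mk, Prod.smul_mk, Prod.smul_mk, Prod.mk_add_mk, Prod.mk_add_mk] at h7
    simp only [smul_eq_mul] at h7
    have hXU : X = U / Z := by rw [hU]; field_simp
    have hX0U : μ * X0 = U' / Z := by rw [hU']; field_simp
    have e1 : (1 - t - (U - t * U')) / 2 * (m + -1 / Z / 100) +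
        (1 - t + (U - t * U')) / 2 * (m + 1 / Z / 100) + t * (m + μ * X0 / 100) = x := by
      have : x = m + X / 100 := by rw [hX]; ring
      rw [this, hXU, hX0U]
      field_simp
      ring
    have e2 : (1 - t - (U - t * U')) / 2 * (p1 + κ1 * (-1 / Z)) +
        (1 - t + (U - t * U')) / 2 * (p1 + κ1 * (1 / Z)) +
        t * (p1 + κ1 * (μ * X0) + μ * D) = y := by
      rw [hy2, hXU, hX0U]
      field_simp
      ring
    rw [e1, e2] at h7
    exact h7

end Pool.Agent.Q165.VN
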