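import Pool.Agent.Q165.VN.Hull

/-!
# Project VN: a net of linear size for parallelograms centred on a vertical line
-/

set_option autoImplicit false

namespace Pool.Agent.Q165.VN

open Finset

/-- the shift of the grid -/
def off (b : Bool) : ℤ := if b then 1 else 0

theorem off_cases (b : Bool) : off b = 0 ∨ off b = 1 := by
  cases b
  · left; rfl
  · right; rfl

theorem floor_nested (N : ℤ) (hN : 0 < N) (a : ℤ) {y y' : ℝ} (h : ⌊y⌋ = ⌊y'⌋) :
    ⌊(y - a) / N⌋ = ⌊(y' - a) / N⌋ := by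
  have key : ∀ y y' : ℝ, ⌊y⌋ = ⌊y'⌋ → ⌊(y - a) / N⌋ ≤ ⌊(y' - a) / N⌋ := by
    intro y y' h
    have hN' : (0 : ℝ) < N := by exact_mod_cast hN
    have h1 : ((⌊(y - a) / N⌋ : ℤ) : ℝ) ≤ (y - a) / N := Int.floor_le _
    rw [le_div_iff₀ hN'] at h1
    have h2 : ⌊(y - a) / N⌋ * N + a ≤ ⌊y⌋ := by
      apply Int.le_floor.2
      push_cast
      linarith
    rw [h] at h2
    apply Int.le_floor.2
    rw [le_div_iff₀ hN']
    have h3 : (((⌊(y - a) / N⌋ * N + a : ℤ)) : ℝ) ≤ y' := by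
      refine le_trans ?_ (Int.floor_le y')
      exact_mod_cast h2
    push_cast at h3
    linarith
  exact le_antisymm (key y y' h) (key y' y h.symm)

theorem good_shift {y y' : ℝ} (h : |y - y'| < 1 / 3) :
    ∃ b : Bool, ⌊y - off b / 3⌋ = ⌊y' - off b / 3⌋ := by
  have key : ∀ y y' : ℝ, y ≤ y' → y' < y + 1 / 3 →
      ∃ b : Bool, ⌊y - off b / 3⌋ = ⌊y' - off b / 3⌋ := by
    intro y y' h1 h2
    by_cases h3 : ⌊y⌋ = ⌊y'⌋
    · refine ⟨false, ?_⟩
      have : ((off false : ℤ) : ℝ) / 3 = 0 := by simp [off]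
      rw [this, sub_zero, sub_zero]
      exact h3
    · refine ⟨true, ?_⟩
      have h4 : ((off true : ℤ) : ℝ) / 3 = 1 / 3 := by simp [off]
      rw [h4]
      have h5 : ⌊y⌋ < ⌊y'⌋ := lt_of_le_of_ne (Int.floor_le_floor h1) h3
      have h6 : y < ⌊y'⌋ := by
        have := Int.lt_floor_add_one y
        have h7 : ((⌊y⌋ : ℤ) : ℝ) + 1 ≤ ⌊y'⌋ := by exact_mod_cast h5
        linarith
      have h8 : ((⌊y'⌋ : ℤ) : ℝ) ≤ y' := Int.floor_le _
      have e1 : ⌊y - 1 / 3⌋ = ⌊y'⌋ - 1 := by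
        rw [Int.floor_eq_iff]
        push_cast
        constructor <;> linarith
      have e2 : ⌊y' - 1 / 3⌋ = ⌊y'⌋ - 1 := by
        rw [Int.floor_eq_iff]
        push_cast
        constructor <;> linarith
      rw [e1, e2]
  obtain ⟨h1, h2⟩ := abs_lt.1 h
  rcases le_total y y' with h3 | h3
  · exact key y y' h3 (by linarith)
  · obtain ⟨b, hb⟩ := key y' y h3 (by linarith)
    exact ⟨b, hb.symm⟩

/-- the cell of the item with the parameters `p, κ` at level `n` -/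
noncomputable def cel (g : Bool × Bool) (p κ : ℝ) (n : ℤ) : ℤ × ℤ :=
  (⌊p / 4 ^ n - off g.1 / 3⌋, ⌊κ / 16 ^ n - off g.2 / 3⌋)

theorem cel_nested (g : Bool × Bool) (p κ p' κ' : ℝ) (n : ℤ) (h : cel g p κ n = cel g p' κ' n) :
    cel g p κ (n + 1) = cel g p' κ' (n + 1) := by
  unfold cel at h ⊢
  rw [Prod.mk.injEq] at h ⊢
  have e1 : ∀ t : ℝ, t / 4 ^ (n + 1) - off g.1 / 3 =
      ((t / 4 ^ n - off g.1 / 3) - (off g.1 : ℤ)) / (4 : ℤ) := by
    intro t
    rw [zpow_add₀ (by norm_num : (4 : ℝ) ≠ 0), zpow_one]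
    have h4 : (4 : ℝ) ^ n ≠ 0 := by positivity
    push_cast
    field_simp
    ring
  have e2 : ∀ t : ℝ, t / 16 ^ (n + 1) - off g.2 / 3 =
      ((t / 16 ^ n - off g.2 / 3) - ((5 * off g.2 : ℤ) : ℝ)) / (16 : ℤ) := by
    intro t
    rw [zpow_add₀ (by norm_num : (16 : ℝ) ≠ 0), zpow_one]
    have h4 : (16 : ℝ) ^ n ≠ 0 := by positivity
    push_cast
    field_simp
    ring
  rw [e1 p, e1 p', e2 κ, e2 κ']
  exact ⟨floor_nested 4 (by norm_num) _ h.1, floor_nested 16 (by norm_num) _ h.2⟩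

/-- the common level of two items -/
theorem common (p κ p' κ' z z' : ℝ) (hz : 0 < z) (hz' : 0 < z') :
    ∃ (n : ℤ) (g : Bool × Bool), Int.clog 4 z ≤ n ∧ Int.clog 4 z' ≤ n ∧
      cel g p κ n = cel g p' κ' n ∧ ((4 : ℝ) ^ n ≤ 4 * z ∨ (4 : ℝ) ^ n ≤ 4 * z' ∨
        (4 : ℝ) ^ n ≤ 12 * |p - p'| ∨ ((4 : ℝ) ^ n) ^ 2 ≤ 48 * |κ - κ'|) := by
  have hpow : ∀ n : ℤ, ((4 : ℝ) ^ n) ^ 2 = 16 ^ n := by
    intro n
    rw [← zpow_natCast, ← zpow_mul, mul_comm, zpow_mul]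
    norm_num
  have hex : ∃ n : ℤ, (Int.clog 4 z ≤ n ∧ Int.clog 4 z' ≤ n ∧ 3 * |p - p'| < (4 : ℝ) ^ n ∧
      3 * |κ - κ'| < (16 : ℝ) ^ n) := by
    obtain ⟨a, ha⟩ := pow_unbounded_of_one_lt (3 * |p - p'|) (by norm_num : (1 : ℝ) < 4)
    obtain ⟨b, hb⟩ := pow_unbounded_of_one_lt (3 * |κ - κ'|) (by norm_num : (1 : ℝ) < 16)
    refine ⟨max (max (Int.clog 4 z) (Int.clog 4 z')) (max (a : ℤ) b), ?_, ?_, ?_, ?_⟩
    · exact (le_max_left _ _).trans (le_max_left _ _)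
    · exact (le_max_right _ _).trans (le_max_left _ _)
    · refine lt_of_lt_of_le ha ?_
      rw [← zpow_natCast]
      exact zpow_le_zpow_right₀ (by norm_num) ((le_max_left _ _).trans (le_max_right _ _))
    · refine lt_of_lt_of_le hb ?_
      rw [← zpow_natCast]
      exact zpow_le_zpow_right₀ (by norm_num) ((le_max_right _ _).trans (le_max_right _ _))
  obtain ⟨n, ⟨h1, h2, h3, h4⟩, hmin⟩ := Int.exists_least_of_bdd
    (P := fun n : ℤ => Int.clog 4 z ≤ n ∧ Int.clog 4 z' ≤ n ∧ 3 * |p - p'| < (4 : ℝ) ^ n ∧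
      3 * |κ - κ'| < (16 : ℝ) ^ n) ⟨Int.clog 4 z, fun n hn => hn.1⟩ hex
  have hp4 : (0 : ℝ) < 4 ^ n := by positivity
  have hp16 : (0 : ℝ) < 16 ^ n := by positivity
  obtain ⟨b1, hb1⟩ := good_shift (y := p / 4 ^ n) (y' := p' / 4 ^ n) (by
    rw [← sub_div, abs_div, abs_of_pos hp4, div_lt_iff₀ hp4]
    linarith)
  obtain ⟨b2, hb2⟩ := good_shift (y := κ / 16 ^ n) (y' := κ' / 16 ^ n) (by
    rw [← sub_div, abs_div, abs_of_pos hp16, div_lt_iff₀ hp16]
    linarith)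
  refine ⟨n, (b1, b2), h1, h2, ?_, ?_⟩
  · unfold cel
    rw [hb1, hb2]
  · by_contra hcon
    push Not at hcon
    obtain ⟨c1, c2, c3, c4⟩ := hcon
    have hn1 : (4 : ℝ) ^ (n - 1) * 4 = 4 ^ n := by
      rw [← zpow_add_one₀ (by norm_num : (4 : ℝ) ≠ 0)]
      congr 1
      ring
    have hn2 : (16 : ℝ) ^ (n - 1) * 16 = 16 ^ n := by
      rw [← zpow_add_one₀ (by norm_num : (16 : ℝ) ≠ 0)]
      congr 1
      ring
    have hlt : ∀ t : ℝ, 0 < t → 4 * t < (4 : ℝ) ^ n → Int.clog 4 t ≤ n - 1 := by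
      intro t ht h5
      have h6 : t ≤ ((4 : ℕ) : ℝ) ^ (n - 1) := by
        push_cast
        linarith
      exact (Int.le_zpow_iff_clog_le (by norm_num) ht).1 h6
    have := hmin (n - 1) ⟨hlt z hz c1, hlt z' hz' c2, by linarith, by
      rw [hpow] at c4
      linarith⟩
    linarith

/-- the cells of the net which belong to a node -/
noncomputable def candid (m : ℝ) (g : Bool × Bool) (x : (ℤ × (ℤ × ℤ)) × (ℤ × ℤ)) :
    Set (ℝ × ℝ) :=
  cell m (4 ^ x.1.1 * (x.1.2.1 + off g.1 / 3)) (16 ^ x.1.1 * (x.1.2.2 + off g.2 / 3))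
    (4 ^ x.1.1) (x.2.1 / 300) (x.2.2 / 300)

theorem exists_box (a b : ℤ) : ∃ B : Finset (ℤ × ℤ), ∀ i j : ℤ, |i| ≤ a → |j| ≤ b → (i, j) ∈ B :=
  ⟨Icc (-a) a ×ˢ Icc (-b) b, fun _ _ hi hj =>
    mem_product.2 ⟨mem_Icc.2 (abs_le.1 hi), mem_Icc.2 (abs_le.1 hj)⟩⟩

/-- the box of the indices of the cells -/
noncomputable def box : Finset (ℤ × ℤ) := (exists_box 301 601).choose

theorem mem_box {i j : ℤ} (hi : |i| ≤ 301) (hj : |j| ≤ 601) : (i, j) ∈ box :=
  (exists_box 301 601).choose_spec i j hi hj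

theorem node_hull (m : ℝ) (g : Bool × Bool) (p κ z p' κ' z' : ℝ) (hz : 0 < z) (hz' : 0 < z')
    (n : ℤ) (hn : Int.clog 4 z ≤ n) (hor : (4 : ℝ) ^ n ≤ 4 * z ∨ (4 : ℝ) ^ n ≤ 4 * z' ∨
        (4 : ℝ) ^ n ≤ 12 * |p - p'| ∨ ((4 : ℝ) ^ n) ^ 2 ≤ 48 * |κ - κ'|) :
    ∃ ij ∈ box, candid m g ((n, cel g p κ n), ij) ⊆
      convexHull ℝ (nset m p κ z ∪ nset m p' κ' z') := by
  have hp4 : (0 : ℝ) < 4 ^ n := by positivity
  have hp16 : (0 : ℝ) < 16 ^ n := by positivity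
  have hpow : ((4 : ℝ) ^ n) ^ 2 = 16 ^ n := by
    rw [← zpow_natCast, ← zpow_mul, mul_comm, zpow_mul]
    norm_num
  have hzn : z ≤ (4 : ℝ) ^ n := by
    have h1 := Int.self_le_zpow_clog (b := 4) (R := ℝ) (by norm_num) z
    push_cast at h1
    exact h1.trans (zpow_le_zpow_right₀ (by norm_num) hn)
  have f1 := Int.floor_le (p / 4 ^ n - off g.1 / 3)
  have f2 := (Int.lt_floor_add_one (p / 4 ^ n - off g.1 / 3)).le
  have f3 := Int.floor_le (κ / 16 ^ n - off g.2 / 3)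
  have f4 := (Int.lt_floor_add_one (κ / 16 ^ n - off g.2 / 3)).le
  have e1 : (4 : ℝ) ^ n * (p / 4 ^ n) = p := by field_simp
  have e2 : (16 : ℝ) ^ n * (κ / 16 ^ n) = κ := by field_simp
  obtain ⟨i, j, hi, hj, hsub⟩ := hull m (4 ^ n * (⌊p / 4 ^ n - off g.1 / 3⌋ + off g.1 / 3))
    (16 ^ n * (⌊κ / 16 ^ n - off g.2 / 3⌋ + off g.2 / 3)) (4 ^ n) p κ z p' κ' z' hp4 hz hz' hzn
    (by
      calc _ ≤ (4 : ℝ) ^ n * (p / 4 ^ n) := mul_le_mul_of_nonneg_left (by linarith) hp4.le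
        _ = p := e1)
    (by
      calc p = (4 : ℝ) ^ n * (p / 4 ^ n) := e1.symm
        _ ≤ (4 : ℝ) ^ n * (⌊p / 4 ^ n - off g.1 / 3⌋ + off g.1 / 3 + 1) :=
            mul_le_mul_of_nonneg_left (by linarith) hp4.le
        _ = _ := by ring)
    (by
      calc _ ≤ (16 : ℝ) ^ n * (κ / 16 ^ n) := mul_le_mul_of_nonneg_left (by linarith) hp16.le
        _ = κ := e2)
    (by
      rw [hpow]
      calc κ = (16 : ℝ) ^ n * (κ / 16 ^ n) := e2.symm
        _ ≤ (16 : ℝ) ^ n * (⌊κ / 16 ^ n - off g.2 / 3⌋ + off g.2 / 3 + 1) :=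
            mul_le_mul_of_nonneg_left (by linarith) hp16.le
        _ = _ := by ring) hor
  exact ⟨(i, j), mem_box hi hj, hsub⟩

/-- **Nets of linear size** for parallelograms centred on a vertical line. -/
theorem line_net (hTREE : S_TREE) (ι : Type) [Fintype ι] (q : ι → P5) (m : ℝ)
    (hq : ∀ i, (q i).Good) (hm : ∀ i, (q i).cx = m) (τ : ℝ) (hτ : 0 < τ) :
    ∃ S : Finset (Set (ℝ × ℝ)), CellNet q τ S ∧
      (S.card : ℝ) * τ ≤ (16 * box.card : ℕ) * Fintype.card ι := by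
  classical
  set z : ι → ℝ := fun i => 1 / (100 * (q i).w) with hzdef
  set κ : ι → ℝ := fun i => (q i).s * (1 / (100 * (q i).w)) with hκdef
  have hz : ∀ i, 0 < z i := by
    intro i
    have := (hq i).1
    simp only [hzdef]
    positivity
  have hnset : ∀ i, nset m (q i).cy (κ i) (z i) ⊆ par (q i) := by
    intro i
    rw [← hm i]
    exact nset_subset_par (q i) (hq i)
  have htree : ∀ g : Bool × Bool, ∃ 𝒩 : Finset (ℤ × (ℤ × ℤ)),
      (𝒩.card : ℝ) * (τ / 4) ≤ Fintype.card ι ∧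
      ∀ i, ((univ.filter fun j => ∃ n, Int.clog 4 (z i) ≤ n ∧ Int.clog 4 (z j) ≤ n ∧
        cel g (q i).cy (κ i) n = cel g (q j).cy (κ j) n ∧
        ∀ n' ≤ n, (Int.clog 4 (z i) ≤ n' → (n', cel g (q i).cy (κ i) n') ∉ 𝒩) ∧
          (Int.clog 4 (z j) ≤ n' → (n', cel g (q j).cy (κ j) n') ∉ 𝒩)).card : ℝ) < τ / 4 := by
    intro g
    exact hTREE ι (ℤ × ℤ) (fun i => Int.clog 4 (z i)) (fun n i => cel g (q i).cy (κ i) n)
      (fun n i j h => cel_nested g _ _ _ _ n h) (τ / 4) (by positivity)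
  choose 𝒩 h𝒩1 h𝒩2 using htree
  refine ⟨univ.biUnion fun g : Bool × Bool => (𝒩 g ×ˢ box).image (candid m g), ⟨?_, ?_⟩, ?_⟩
  · intro s hs
    simp only [mem_biUnion, mem_univ, true_and, mem_image] at hs
    obtain ⟨g, x, -, rfl⟩ := hs
    exact ⟨_, _, _, _, _, _, by positivity, rfl⟩
  · intro G hG
    have hGpos : 0 < G.card := by
      have : (0 : ℝ) < G.card := lt_of_lt_of_le hτ hG
      exact_mod_cast this
    obtain ⟨i, hi⟩ := card_pos.1 hGpos
    -- the items not separated from `i`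
    set B : Bool × Bool → Finset ι := fun g =>
      univ.filter fun j => ∃ n, Int.clog 4 (z i) ≤ n ∧ Int.clog 4 (z j) ≤ n ∧
        cel g (q i).cy (κ i) n = cel g (q j).cy (κ j) n ∧
        ∀ n' ≤ n, (Int.clog 4 (z i) ≤ n' → (n', cel g (q i).cy (κ i) n') ∉ 𝒩 g) ∧
          (Int.clog 4 (z j) ≤ n' → (n', cel g (q j).cy (κ j) n') ∉ 𝒩 g) with hB
    have hBcard : ∀ g, ((B g).card : ℝ) < τ / 4 := fun g => h𝒩2 g i
    have hU : ((univ.biUnion B).card : ℝ) < τ := by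
      have h1 : (univ.biUnion B).card ≤ ∑ g : Bool × Bool, (B g).card := card_biUnion_le
      have h2 : ((univ.biUnion B).card : ℝ) ≤ ∑ g : Bool × Bool, ((B g).card : ℝ) := by
        exact_mod_cast h1
      refine lt_of_le_of_lt h2 ?_
      calc ∑ g : Bool × Bool, ((B g).card : ℝ) < ∑ _g : Bool × Bool, τ / 4 :=
            sum_lt_sum_of_nonempty ⟨(true, true), mem_univ _⟩ fun g _ => hBcard g
        _ = τ := by
            rw [sum_const, card_univ, Fintype.card_prod, Fintype.card_bool, nsmul_eq_mul]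
            push_cast
            ring
    have hex : ∃ j ∈ G, j ∉ univ.biUnion B := by
      by_contra hcon
      push Not at hcon
      have h1 : G.card ≤ (univ.biUnion B).card := card_le_card hcon
      have h2 : (G.card : ℝ) ≤ (univ.biUnion B).card := by exact_mod_cast h1
      linarith
    obtain ⟨j, hj, hjB⟩ := hex
    obtain ⟨n, g, hn1, hn2, hn3, hn4⟩ := common (q i).cy (κ i) (q j).cy (κ j) (z i) (z j)
      (hz i) (hz j)
    have hjg : j ∉ B g := fun h => hjB (mem_biUnion.2 ⟨g, mem_univ _, h⟩)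
    simp only [hB, mem_filter, mem_univ, true_and, not_exists] at hjg
    have h5 := hjg n
    have h6 : ∃ n' ≤ n, (Int.clog 4 (z i) ≤ n' ∧ (n', cel g (q i).cy (κ i) n') ∈ 𝒩 g) ∨
        (Int.clog 4 (z j) ≤ n' ∧ (n', cel g (q j).cy (κ j) n') ∈ 𝒩 g) := by
      by_contra hcon
      push Not at hcon
      exact h5 ⟨hn1, hn2, hn3, hcon⟩
    obtain ⟨n', hn', h7⟩ := h6
    have hpow : (4 : ℝ) ^ n' ≤ 4 ^ n := zpow_le_zpow_right₀ (by norm_num) hn'
    have hpos : (0 : ℝ) < 4 ^ n' := by positivity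
    have hor : (4 : ℝ) ^ n' ≤ 4 * z i ∨ (4 : ℝ) ^ n' ≤ 4 * z j ∨
        (4 : ℝ) ^ n' ≤ 12 * |(q i).cy - (q j).cy| ∨ ((4 : ℝ) ^ n') ^ 2 ≤ 48 * |κ i - κ j| := by
      rcases hn4 with h | h | h | h
      · exact Or.inl (hpow.trans h)
      · exact Or.inr (Or.inl (hpow.trans h))
      · exact Or.inr (Or.inr (Or.inl (hpow.trans h)))
      · exact Or.inr (Or.inr (Or.inr ((pow_le_pow_left₀ hpos.le hpow 2).trans h)))
    have hsub : ∀ i' j' : ι, i' ∈ G → j' ∈ G →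
        convexHull ℝ (nset m (q i').cy (κ i') (z i') ∪ nset m (q j').cy (κ j') (z j')) ⊆
          convexHull ℝ (⋃ i ∈ G, par (q i)) := by
      intro i' j' hi' hj'
      apply convexHull_mono
      apply Set.union_subset
      · exact (hnset i').trans (Set.subset_biUnion_of_mem (u := fun i => par (q i)) hi')
      · exact (hnset j').trans (Set.subset_biUnion_of_mem (u := fun i => par (q i)) hj')
    rcases h7 with ⟨h8, h9⟩ | ⟨h8, h9⟩
    · obtain ⟨ij, hij, h10⟩ := node_hull m g (q i).cy (κ i) (z i) (q j).cy (κ j) (z j) (hz i) (hz j)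
        n' h8 hor
      have hx : ((n', cel g (q i).cy (κ i) n'), ij) ∈ 𝒩 g ×ˢ box := mem_product.2 ⟨h9, hij⟩
      exact ⟨_, mem_biUnion.2 ⟨g, mem_univ _, mem_image_of_mem _ hx⟩,
        h10.trans (hsub i j hi hj)⟩
    · have hor' : (4 : ℝ) ^ n' ≤ 4 * z j ∨ (4 : ℝ) ^ n' ≤ 4 * z i ∨
          (4 : ℝ) ^ n' ≤ 12 * |(q j).cy - (q i).cy| ∨ ((4 : ℝ) ^ n') ^ 2 ≤ 48 * |κ j - κ i| := by
        rw [abs_sub_comm (q j).cy, abs_sub_comm (κ j)]
        tauto
      obtain ⟨ij, hij, h10⟩ := node_hull m g (q j).cy (κ j) (z j) (q i).cy (κ i) (z i) (hz j) (hz i)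
        n' h8 hor'
      have hx : ((n', cel g (q j).cy (κ j) n'), ij) ∈ 𝒩 g ×ˢ box := mem_product.2 ⟨h9, hij⟩
      exact ⟨_, mem_biUnion.2 ⟨g, mem_univ _, mem_image_of_mem _ hx⟩,
        h10.trans (hsub j i hj hi)⟩
  · have h1 : (univ.biUnion fun g : Bool × Bool => (𝒩 g ×ˢ box).image (candid m g)).card ≤
        ∑ g : Bool × Bool, (𝒩 g).card * box.card := by
      refine card_biUnion_le.trans (sum_le_sum fun g _ => ?_)
      rw [← card_product]
      exact card_image_le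
    have h2 : ((univ.biUnion fun g : Bool × Bool =>
        (𝒩 g ×ˢ box).image (candid m g)).card : ℝ) ≤
        ∑ g : Bool × Bool, ((𝒩 g).card : ℝ) * box.card := by exact_mod_cast h1
    calc _ ≤ (∑ g : Bool × Bool, ((𝒩 g).card : ℝ) * box.card) * τ :=
          mul_le_mul_of_nonneg_right h2 hτ.le
      _ = ∑ g : Bool × Bool, (4 * box.card) * (((𝒩 g).card : ℝ) * (τ / 4)) := by
          rw [sum_mul]
          apply sum_congr rfl
          intro g _
          ring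
      _ ≤ ∑ _g : Bool × Bool, (4 * box.card) * (Fintype.card ι : ℝ) := by
          apply sum_le_sum
          intro g _
          exact mul_le_mul_of_nonneg_left (h𝒩1 g) (by positivity)
      _ = _ := by
          rw [sum_const, card_univ, Fintype.card_prod, Fintype.card_bool, nsmul_eq_mul]
          push_cast
          ring

end Pool.Agent.Q165.VN
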