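import Pool.Agent.Q165.VN.Line

/-!
# Project VN: the planar theorem (`S_TREE → S_PLANE`)
-/

set_option autoImplicit false

namespace Pool.Agent.Q165.VN

open Finset

/-! ## A single cell -/

theorem one_cell (q : P5) (hq : q.Good) : ∃ s : Set (ℝ × ℝ), IsCell s ∧ s ⊆ convexHull ℝ (par q) := by
  have hz : 0 < 1 / (100 * q.w) := by
    have := hq.1
    positivity
  obtain ⟨i, j, -, -, h⟩ := hull q.cx q.cy (q.s * (1 / (100 * q.w))) (1 / (100 * q.w)) q.cy
    (q.s * (1 / (100 * q.w))) (1 / (100 * q.w)) q.cy (q.s * (1 / (100 * q.w))) (1 / (100 * q.w))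
    hz hz hz le_rfl le_rfl (by linarith) le_rfl (by
      have : 0 < (1 / (100 * q.w)) ^ 2 := by positivity
      linarith) (Or.inl (by linarith))
  refine ⟨_, ⟨_, _, _, _, _, _, hz, rfl⟩, h.trans (convexHull_mono ?_)⟩
  rw [Set.union_self]
  exact nset_subset_par q hq

/-! ## Averages -/

/-- the average of two parallelograms -/
def avg (t : ℝ) (q q' : P5) : P5 where
  cx := (1 - t) * q.cx + t * q'.cx
  cy := (1 - t) * q.cy + t * q'.cy
  w := (1 - t) * q.w + t * q'.w
  s := (1 - t) * q.s + t * q'.s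
  h := (1 - t) * q.h + t * q'.h

theorem avg_good (t : ℝ) (h0 : 0 ≤ t) (h1 : t ≤ 1) (q q' : P5) (hq : q.Good) (hq' : q'.Good) :
    (avg t q q').Good := by
  obtain ⟨w1, g1, a1⟩ := hq
  obtain ⟨w2, g2, a2⟩ := hq'
  have ht : 0 ≤ 1 - t := by linarith
  have hpos : ∀ x y : ℝ, 0 < x → 0 < y → 0 < (1 - t) * x + t * y := by
    intro x y hx hy
    rcases eq_or_lt_of_le h0 with h | h
    · rw [← h]
      linarith
    · have := mul_nonneg ht hx.le
      have := mul_pos h hy
      linarith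
  refine ⟨hpos _ _ w1 w2, hpos _ _ g1 g2, ?_⟩
  change 1 / 100 ≤ ((1 - t) * q.w + t * q'.w) * ((1 - t) * q.h + t * q'.h)
  have hcross : 2 / 100 ≤ q.w * q'.h + q'.w * q.h := by
    have hx : 0 < q.w * q'.h := mul_pos w1 g2
    have hy : 0 < q'.w * q.h := mul_pos w2 g1
    have hxy : 1 / 10000 ≤ (q.w * q'.h) * (q'.w * q.h) := by
      have : (q.w * q'.h) * (q'.w * q.h) = (q.w * q.h) * (q'.w * q'.h) := by ring
      rw [this]
      calc (1 : ℝ) / 10000 = (1 / 100) * (1 / 100) := by norm_num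
        _ ≤ _ := mul_le_mul a1 a2 (by norm_num) (by positivity)
    nlinarith [sq_nonneg (q.w * q'.h - q'.w * q.h)]
  have e : ((1 - t) * q.w + t * q'.w) * ((1 - t) * q.h + t * q'.h) =
      (1 - t) ^ 2 * (q.w * q.h) + t ^ 2 * (q'.w * q'.h) +
        t * (1 - t) * (q.w * q'.h + q'.w * q.h) := by ring
  rw [e]
  have b1 := mul_le_mul_of_nonneg_left a1 (sq_nonneg (1 - t))
  have b2 := mul_le_mul_of_nonneg_left a2 (sq_nonneg t)
  have b3 := mul_le_mul_of_nonneg_left hcross (mul_nonneg h0 ht)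
  nlinarith

theorem avg_subset (t : ℝ) (h0 : 0 ≤ t) (h1 : t ≤ 1) (q q' : P5) :
    par (avg t q q') ⊆ convexHull ℝ (par q ∪ par q') := by
  rintro p ⟨a, b, ha, hb, rfl⟩
  have h2 : ((q.cx + a * q.w, q.cy + a * q.s + b * q.h) : ℝ × ℝ) ∈
      convexHull ℝ (par q ∪ par q') :=
    subset_convexHull ℝ _ (Or.inl ⟨a, b, ha, hb, rfl⟩)
  have h3 : ((q'.cx + a * q'.w, q'.cy + a * q'.s + b * q'.h) : ℝ × ℝ) ∈
      convexHull ℝ (par q ∪ par q') :=
    subset_convexHull ℝ _ (Or.inr ⟨a, b, ha, hb, rfl⟩)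
  have h4 := (convex_convexHull ℝ (par q ∪ par q')) h2 h3 (by linarith : 0 ≤ 1 - t) h0 (by ring)
  have e : (1 - t) • ((q.cx + a * q.w, q.cy + a * q.s + b * q.h) : ℝ × ℝ) +
      t • ((q'.cx + a * q'.w, q'.cy + a * q'.s + b * q'.h) : ℝ × ℝ) =
      ((avg t q q').cx + a * (avg t q q').w,
        (avg t q q').cy + a * (avg t q q').s + b * (avg t q q').h) := by
    simp only [avg, Prod.smul_mk, Prod.mk_add_mk, smul_eq_mul, Prod.mk.injEq]
    constructor <;> ring
  rw [e] at h4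
  exact h4

theorem exists_t (a b m : ℝ) (h1 : a ≤ m) (h2 : m ≤ b) :
    ∃ t : ℝ, 0 ≤ t ∧ t ≤ 1 ∧ (1 - t) * a + t * b = m := by
  rcases eq_or_lt_of_le (h1.trans h2) with h | h
  · refine ⟨0, le_rfl, zero_le_one, ?_⟩
    have : a = m := le_antisymm h1 (h ▸ h2)
    linarith
  · have hpos : 0 < b - a := by linarith
    refine ⟨(m - a) / (b - a), div_nonneg (by linarith) hpos.le, ?_, ?_⟩
    · rw [div_le_one hpos]
      linarith
    · field_simp
      ring

/-! ## Splitting -/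

theorem exists_lower {ι : Type} [Fintype ι] (f : ι → ℝ) (k : ℕ) (hk : k ≤ Fintype.card ι) :
    ∃ L : Finset ι, L.card = k ∧ ∀ i ∈ L, ∀ j ∉ L, f i ≤ f j := by
  classical
  induction k with
  | zero => exact ⟨∅, rfl, by simp⟩
  | succ k ih =>
    obtain ⟨L, hL, hL2⟩ := ih (by omega)
    have hne : (univ \ L).Nonempty := by
      rw [← card_pos, card_sdiff_of_subset (subset_univ _), card_univ]
      omega
    obtain ⟨a, ha, hmin⟩ := exists_min_image (univ \ L) f hne
    have haL : a ∉ L := (mem_sdiff.1 ha).2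
    refine ⟨insert a L, by rw [card_insert_of_notMem haL, hL], ?_⟩
    intro i hi j hj
    rw [mem_insert, not_or] at hj
    rcases mem_insert.1 hi with rfl | hi
    · exact hmin j (mem_sdiff.2 ⟨mem_univ _, hj.2⟩)
    · exact hL2 i hi j hj.2

theorem exists_split {ι : Type} [Fintype ι] (f : ι → ℝ) (k : ℕ) (hk0 : 0 < k)
    (hk : k ≤ Fintype.card ι) :
    ∃ (L : Finset ι) (m : ℝ), L.card = k ∧ (∀ i ∈ L, f i ≤ m) ∧ ∀ j ∉ L, m ≤ f j := by
  obtain ⟨L, hL, hL2⟩ := exists_lower f k hk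
  have hne : L.Nonempty := by
    rw [← card_pos]
    omega
  obtain ⟨a, ha, hmax⟩ := exists_max_image L f hne
  exact ⟨L, f a, hL, hmax, fun j hj => hL2 a ha j hj⟩

/-! ## Induction -/

theorem subfamily {ι : Type} [DecidableEq ι] (q : ι → P5) (P : ι → Prop) [DecidablePred P] (τ : ℝ)
    (S : Finset (Set (ℝ × ℝ))) (h : CellNet (fun i : {x // P x} => q i) τ S) (G : Finset ι)
    (hG : τ ≤ (G.filter P).card) : ∃ s ∈ S, s ⊆ convexHull ℝ (⋃ i ∈ G, par (q i)) := by
  obtain ⟨s, hs, h2⟩ := h.2 (G.subtype P) (by rw [card_subtype]; exact hG)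
  refine ⟨s, hs, h2.trans (convexHull_mono ?_)⟩
  intro x hx
  simp only [Set.mem_iUnion, mem_subtype] at hx ⊢
  obtain ⟨i, hi, hx⟩ := hx
  exact ⟨i, hi, hx⟩

theorem main_ind (hTREE : S_TREE) (N : ℕ) : ∀ (ι : Type) [Fintype ι] (q : ι → P5),
    Fintype.card ι = N → (∀ i, (q i).Good) → ∀ τ : ℝ, 0 < τ →
    ∃ S : Finset (Set (ℝ × ℝ)), CellNet q τ S ∧
      (S.card : ℝ) * τ ^ 2 ≤ (50 * (16 * box.card : ℕ) + 64) * (N : ℝ) ^ 2 := by
  induction N using Nat.strong_induction_on with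
  | _ N ih =>
  intro ι _ q hN hq τ hτ
  classical
  by_cases hA : (N : ℝ) < τ
  · refine ⟨∅, ⟨by simp, ?_⟩, ?_⟩
    · intro G hG
      exfalso
      have h1 : G.card ≤ N := hN ▸ card_le_univ G
      have h2 : (G.card : ℝ) ≤ N := by exact_mod_cast h1
      linarith
    · simp only [card_empty, Nat.cast_zero, zero_mul]
      positivity
  push Not at hA
  have hNpos : 0 < N := by
    have : (0 : ℝ) < N := lt_of_lt_of_le hτ hA
    exact_mod_cast this
  by_cases hB : τ ≤ 8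
  · choose s hs1 hs2 using fun i => one_cell (q i) (hq i)
    refine ⟨univ.image s, ⟨?_, ?_⟩, ?_⟩
    · intro x hx
      obtain ⟨i, -, rfl⟩ := mem_image.1 hx
      exact hs1 i
    · intro G hG
      have hGpos : 0 < G.card := by
        have : (0 : ℝ) < G.card := lt_of_lt_of_le hτ hG
        exact_mod_cast this
      obtain ⟨i, hi⟩ := card_pos.1 hGpos
      exact ⟨s i, mem_image_of_mem _ (mem_univ _), (hs2 i).trans (convexHull_mono
        (Set.subset_biUnion_of_mem (u := fun i => par (q i)) hi))⟩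
    · have h1 : (univ.image s).card ≤ N := by
        refine card_image_le.trans ?_
        rw [card_univ, hN]
      have h2 : ((univ.image s).card : ℝ) ≤ N := by exact_mod_cast h1
      have h3 : (1 : ℝ) ≤ N := by exact_mod_cast hNpos
      calc ((univ.image s).card : ℝ) * τ ^ 2 ≤ N * 8 ^ 2 := by
            apply mul_le_mul h2 (pow_le_pow_left₀ hτ.le hB 2) (by positivity) (by positivity)
        _ ≤ 64 * (N : ℝ) ^ 2 := by nlinarith
        _ ≤ _ := by
          have : (0 : ℝ) ≤ 50 * (16 * box.card : ℕ) * (N : ℝ) ^ 2 := by positivity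
          linarith
  push Not at hB
  have hN8 : 8 < N := by
    have : (8 : ℝ) < N := lt_of_lt_of_le hB hA
    exact_mod_cast this
  obtain ⟨L, m, hLc, hL, hR⟩ := exists_split (fun i => (q i).cx) (N / 2) (by omega) (by omega)
  have hcL : Fintype.card {x // x ∈ L} = N / 2 := by
    rw [Fintype.card_coe, hLc]
  have hcR : Fintype.card {x // x ∉ L} = N - N / 2 := by
    rw [Fintype.card_subtype_compl, hN, hcL]
  obtain ⟨SL, hSL, hSLc⟩ := ih (N / 2) (by omega) {x // x ∈ L} (fun i => q i) hcL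
    (fun i => hq i) (7 / 8 * τ) (by positivity)
  obtain ⟨SR, hSR, hSRc⟩ := ih (N - N / 2) (by omega) {x // x ∉ L} (fun i => q i) hcR
    (fun i => hq i) (7 / 8 * τ) (by positivity)
  choose t ht0 ht1 htm using fun (i : {x // x ∈ L}) (j : {x // x ∉ L}) =>
    exists_t (q i).cx (q j).cx m (hL i i.2) (hR j j.2)
  obtain ⟨SM, hSM, hSMc⟩ := line_net hTREE ({x // x ∈ L} × {x // x ∉ L})
    (fun x => avg (t x.1 x.2) (q x.1) (q x.2)) m
    (fun x => avg_good _ (ht0 _ _) (ht1 _ _) _ _ (hq _) (hq _)) (fun x => htm x.1 x.2)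
    ((τ / 8) ^ 2) (by positivity)
  refine ⟨SL ∪ SR ∪ SM, ⟨?_, ?_⟩, ?_⟩
  · intro s hs
    rcases mem_union.1 hs with h | h
    · rcases mem_union.1 h with h | h
      · exact hSL.1 s h
      · exact hSR.1 s h
    · exact hSM.1 s h
  · intro G hG
    have hsum : ((G.filter fun x => x ∈ L).card : ℝ) + (G.filter fun x => x ∉ L).card = G.card := by
      exact_mod_cast card_filter_add_card_filter_not (s := G) (fun x => x ∈ L)
    by_cases h1 : 7 / 8 * τ ≤ ((G.filter fun x => x ∈ L).card : ℝ)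
    · obtain ⟨s, hs, h2⟩ := subfamily q (fun x => x ∈ L) _ SL hSL G h1
      exact ⟨s, mem_union_left _ (mem_union_left _ hs), h2⟩
    by_cases h2 : 7 / 8 * τ ≤ ((G.filter fun x => x ∉ L).card : ℝ)
    · obtain ⟨s, hs, h2⟩ := subfamily q (fun x => x ∉ L) _ SR hSR G h2
      exact ⟨s, mem_union_left _ (mem_union_right _ hs), h2⟩
    push Not at h1 h2
    have h3 : τ / 8 ≤ ((G.filter fun x => x ∈ L).card : ℝ) := by linarith
    have h4 : τ / 8 ≤ ((G.filter fun x => x ∉ L).card : ℝ) := by linarith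
    obtain ⟨s, hs, h5⟩ := hSM.2 ((G.subtype fun x => x ∈ L) ×ˢ (G.subtype fun x => x ∉ L)) (by
      rw [card_product, card_subtype, card_subtype]
      push_cast
      rw [sq]
      exact mul_le_mul h3 h4 (by positivity) (by positivity))
    refine ⟨s, mem_union_right _ hs, h5.trans (convexHull_min ?_ (convex_convexHull ℝ _))⟩
    intro x hx
    simp only [Set.mem_iUnion, mem_product, mem_subtype] at hx
    obtain ⟨⟨i, j⟩, ⟨hi, hj⟩, hx⟩ := hx
    have h6 := avg_subset _ (ht0 i j) (ht1 i j) (q i) (q j) hx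
    refine convexHull_mono (Set.union_subset ?_ ?_) h6
    · exact Set.subset_biUnion_of_mem (u := fun i => par (q i)) hi
    · exact Set.subset_biUnion_of_mem (u := fun i => par (q i)) hj
  · have hk : ∃ k : ℕ, N = 2 * k ∨ N = 2 * k + 1 := ⟨N / 2, by omega⟩
    have hle : ((SL ∪ SR ∪ SM).card : ℝ) ≤ SL.card + SR.card + SM.card := by
      exact_mod_cast (card_union_le _ _).trans (Nat.add_le_add_right (card_union_le _ _) _)
    rw [Fintype.card_prod, hcL, hcR] at hSMc
    set B : ℝ := ((16 * box.card : ℕ) : ℝ) with hBdef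
    have hB0 : 0 ≤ B := by positivity
    set x : ℝ := ((N / 2 : ℕ) : ℝ) with hx
    set y : ℝ := ((N - N / 2 : ℕ) : ℝ) with hy
    have hxy : x + y = N := by
      rw [hx, hy]
      have : N / 2 + (N - N / 2) = N := by omega
      exact_mod_cast this
    have hyx : y ≤ x + 1 := by
      rw [hx, hy]
      have : N - N / 2 ≤ N / 2 + 1 := by omega
      exact_mod_cast this
    have hyx' : x ≤ y := by
      rw [hx, hy]
      have : N / 2 ≤ N - N / 2 := by omega
      exact_mod_cast this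
    have hN9 : (9 : ℝ) ≤ N := by exact_mod_cast hN8
    have hx0 : 0 ≤ x := by positivity
    push_cast at hSMc
    rw [← hx, ← hy] at hSMc
    -- squares
    have s1 : x ^ 2 + y ^ 2 ≤ ((N : ℝ) ^ 2 + 1) / 2 := by
      have : (y - x) ^ 2 ≤ 1 := by
        have h1 : 0 ≤ y - x := by linarith
        have h2 : y - x ≤ 1 := by linarith
        nlinarith
      rw [← hxy]
      nlinarith
    have s2 : x * y ≤ (N : ℝ) ^ 2 / 4 := by
      rw [← hxy]
      nlinarith [sq_nonneg (x - y)]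
    have s3 : ((N : ℝ) ^ 2 + 1) / 2 ≤ 33 / 64 * (N : ℝ) ^ 2 := by nlinarith
    have t1 : (SL.card : ℝ) * τ ^ 2 ≤ 64 / 49 * ((50 * B + 64) * x ^ 2) := by
      have : (7 / 8 * τ) ^ 2 = 49 / 64 * τ ^ 2 := by ring
      rw [this] at hSLc
      linarith
    have t2 : (SR.card : ℝ) * τ ^ 2 ≤ 64 / 49 * ((50 * B + 64) * y ^ 2) := by
      have : (7 / 8 * τ) ^ 2 = 49 / 64 * τ ^ 2 := by ring
      rw [this] at hSRc
      linarith
    have t3 : (SM.card : ℝ) * τ ^ 2 ≤ 64 * (B * (x * y)) := by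
      have : (τ / 8) ^ 2 = 1 / 64 * τ ^ 2 := by ring
      rw [this] at hSMc
      linarith
    have u1 : (50 * B + 64) * (x ^ 2 + y ^ 2) ≤ (50 * B + 64) * (33 / 64 * (N : ℝ) ^ 2) :=
      mul_le_mul_of_nonneg_left (s1.trans s3) (by positivity)
    have u2 : B * (x * y) ≤ B * ((N : ℝ) ^ 2 / 4) := mul_le_mul_of_nonneg_left s2 hB0
    have u3 : 0 ≤ B * (N : ℝ) ^ 2 := by positivity
    have u4 : (0 : ℝ) ≤ (N : ℝ) ^ 2 := by positivity
    calc ((SL ∪ SR ∪ SM).card : ℝ) * τ ^ 2 ≤ (SL.card + SR.card + SM.card) * τ ^ 2 :=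
          mul_le_mul_of_nonneg_right hle (by positivity)
      _ ≤ 64 / 49 * ((50 * B + 64) * (x ^ 2 + y ^ 2)) + 64 * (B * (x * y)) := by linarith
      _ ≤ (50 * B + 64) * (N : ℝ) ^ 2 := by linarith

/-- **The planar theorem.** -/
theorem plane (hTREE : S_TREE) : S_PLANE := by
  refine ⟨50 * (16 * box.card : ℕ) + 64, ?_⟩
  intro ε hε hε1 ι _ _ q hq
  have hN : (0 : ℝ) < Fintype.card ι := by exact_mod_cast Fintype.card_pos
  obtain ⟨S, hS, hc⟩ := main_ind hTREE (Fintype.card ι) ι q rfl hq (ε * Fintype.card ι)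
    (by positivity)
  refine ⟨S, hS, ?_⟩
  rw [le_div_iff₀ (by positivity)]
  have h1 : (S.card : ℝ) * ε ^ 2 * (Fintype.card ι : ℝ) ^ 2 ≤
      (50 * (16 * box.card : ℕ) + 64) * (Fintype.card ι : ℝ) ^ 2 := by
    calc _ = (S.card : ℝ) * (ε * Fintype.card ι) ^ 2 := by ring
      _ ≤ _ := hc
  exact le_of_mul_le_mul_right h1 (by positivity)

end Pool.Agent.Q165.VN
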