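import Pool.Agent.Q165.VN.Defs

/-!
# Project VN (helper165): volumetric weak epsilon-nets, row MP_a20b56_co

Result: `α_1 = 1` and `α_2 ≤ 2` (so the question whether `α_d < d + 1` has the answer yes for
`d = 1, 2`).

Plan of the proof for the plane (helper165 does PLANE): every convex set of area `1` contains a
parallelogram with vertical sides and of area `≥ 4/100` (INNER).  Split the family by a vertical
line `x = m`; either most members of `G` are on one side (recursion), or the averages of a member of
`G` on the left and one on the right are parallelograms centred on the line; these averages are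
points `(p, κ, z)` of a parabolic upper half space, and a dyadic tree (TREE) in it gives a net of
linear size for the `N²/4` averages, of which `G` contains a part `≥ c ε²`.
-/

set_option autoImplicit false

namespace Pool.Agent.Q165.VN

open MeasureTheory Finset

open Classical in
/-- JOB VN-TREE.  Separators in a tree.  `lev i` is the level of the item `i` and `c n i` the cell of
`i` at the level `n` (used only for `n ≥ lev i`); cells are nested.  The tree path between `i` and `j`
consists of the nodes `(n', c n' i)`, `lev i ≤ n' ≤ n`, and `(n', c n' j)`, `lev j ≤ n' ≤ n`, where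
`c n i = c n j`.  Claim: with at most `|ι| / τ` nodes one can separate every item from all but less
than `τ` items.

Proof.  Prove the statement with `univ` replaced by a finite set `R` of items (`|𝒩| τ ≤ |R|`; for all
`i ∈ R` less than `τ` of the `j ∈ R` are not separated from `i`), by strong induction on `|R|`.  For a
node `(n, ν)` let `R(n, ν) = {j ∈ R : lev j ≤ n, c n j = ν}`.
Case 1: no node has `|R(n, ν)| ≥ τ`.  Take `𝒩 = ∅`.  For `i ∈ R` let `J` be the set of the `j ∈ R` for which
there is `n` with `lev i ≤ n`, `lev j ≤ n`, `c n i = c n j`; if `J` is empty the claim is `0 < τ`; otherwise choose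
such an `n_j` for each `j ∈ J` and let `n*` be the maximum; by nestedness `c n* j = c n* i` for all `j ∈ J`, so
`J ⊆ R(n*, c n* i)` and `|J| < τ`.
Case 2: otherwise choose a node `(n0, ν0)` with `|R(n0, ν0)| ≥ τ` and `n0` minimal (the levels of such nodes are
bounded below by the minimum of `lev` on `R`, as `R(n0, ν0)` is not empty).  Put `R0 = R(n0, ν0)`,
`R' = R \ R0` (smaller), `𝒩'` the set for `R'`, `𝒩 = 𝒩' ∪ {(n0, ν0)}`; `|𝒩| τ ≤ |R'| + τ ≤ |R|`.
(a) `i ∈ R'`, `j ∈ R0` (or the other way round) are separated: let `n` be as in the definition.  If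
`n ≥ n0` then the node `(n0, c n0 j) = (n0, ν0)` is on the path (`lev j ≤ n0`).  If `n < n0` then
`c n0 i = c n0 j = ν0` (nested) and `lev i ≤ n < n0`, so `i ∈ R0`, a contradiction.
(b) `i, j ∈ R'`: not separated by `𝒩` implies not separated by `𝒩'`: less than `τ` such `j`.
(c) `i, j ∈ R0` not separated: then `n < n0` (otherwise `(n0, c n0 i) ∈ 𝒩`, `lev i ≤ n0 ≤ n`).  As in case 1,
with the maximum `n* < n0` of the `n_j`, all these `j` are in `R(n*, c n* i)`, which has less than `τ` elements
by the minimality of `n0`. -/
def S_TREE : Prop := ∀ (ι α : Type) [Fintype ι] (lev : ι → ℤ) (c : ℤ → ι → α),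
  (∀ n i j, c n i = c n j → c (n + 1) i = c (n + 1) j) → ∀ τ : ℝ, 0 < τ →
  ∃ 𝒩 : Finset (ℤ × α), (𝒩.card : ℝ) * τ ≤ Fintype.card ι ∧
    ∀ i, ((univ.filter fun j => ∃ n, lev i ≤ n ∧ lev j ≤ n ∧ c n i = c n j ∧
      ∀ n' ≤ n, (lev i ≤ n' → (n', c n' i) ∉ 𝒩) ∧ (lev j ≤ n' → (n', c n' j) ∉ 𝒩)).card : ℝ) < τ

/-- JOB VN-INNER.  A convex set of area `1` contains a parallelogram with vertical sides, half width
`w` and half height `h` with `w h ≥ 1/100`.

Proof.  Replace `K` by its interior (open, convex, same volume: `Convex.addHaar_frontier`).  A vertical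
chord at `x` of length `b - a` means `{x} × [a, b] ⊆ K`.  If there are chords at `x1 < x2`, both of length
`≥ l > 0`, then their convex hull contains the parallelogram with half width `w = (x2 - x1)/2` and half
height `h = l/2` (for `K` take the lower parts of length `l` of the chords: centre
`((x1+x2)/2, (a1+a2+l)/2)`, `s = (a2-a1)/2`), so `w h = (x2 - x1) l / 4`.  Suppose that the claim is false.  Then
`|x2 - x1| l < 4/100` for all pairs of chords of length `≥ l`.
Let `x0` have a chord of length `L > 0` and let `(x, y) ∈ K`.  Then `(x + x0)/2` has a chord of length `L/2` (midpoints of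
`(x, y)` and of the points of the chord), so `|x - x0|/2 * L/2 < 4/100`, `|x - x0| < 16/(100 L)`.
Let `H ∈ (0, ∞]` be the supremum of the lengths of the chords (`H > 0` as `K` is open and not empty).
If `H = ∞`: the above with `L → ∞` shows that all points of `K` have the same `x`, impossible for an open
set.  If `H < ∞`: choose `L > H/2`; then `K ⊆ [x0 - 32/(100 H), x0 + 32/(100 H)] × ℝ`, and every vertical section
of `K` is convex with all closed subintervals of length `≤ H`, so it has measure `≤ H`.  By Fubini
(`MeasureTheory.Measure.volume_eq_prod`, `MeasureTheory.Measure.prod_apply`, `K` is open, so measurable) the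
volume of `K` is at most `64/(100 H) * H = 64/100 < 1`.  A contradiction. -/
def S_INNER : Prop := ∀ K : Set (ℝ × ℝ), Convex ℝ K → volume K = 1 →
  ∃ q : P5, q.Good ∧ par q ⊆ K

/-- JOB VN-VOL.  Area of the cells.
Proof.  Measurable (closed conditions), Fubini: for fixed `x` with `u ≤ 100 Z (x - m) ≤ u + 1/300` (an interval of
length `1/(30000 Z)`) the section is a closed interval of length `Z/300`, otherwise it is empty; the
product is `1/9000000`.  Or: image of a square under an affine map. -/
def S_VOL : Prop := ∀ m p0 κ0 Z u v : ℝ, 0 < Z →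
  volume (cell m p0 κ0 Z u v) = ENNReal.ofReal (1 / 9000000)

/-- What helper165 proves (PLANE). -/
def S_PLANE : Prop := ∃ C : ℝ, ∀ ε : ℝ, 0 < ε → ε ≤ 1 →
  ∀ (ι : Type) [Fintype ι] [Nonempty ι] (q : ι → P5), (∀ i, (q i).Good) →
    ∃ S : Finset (Set (ℝ × ℝ)), CellNet q (ε * Fintype.card ι) S ∧ (S.card : ℝ) ≤ C / ε ^ 2

/-- JOB VN-TRANS.  From the plane `ℝ × ℝ` to `Fin 2 → ℝ`.
Proof.  `v = 1/9000000`.  `MeasurableEquiv.finTwoArrow : (Fin 2 → ℝ) ≃ᵐ ℝ × ℝ` preserves the volume
(`MeasureTheory.volume_preserving_finTwoArrow`) and is linear.  For the family `F` let `K i` be the image in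
`ℝ × ℝ` (convex, volume `1`), choose `q i` by `S_INNER`, apply `S_PLANE`, and pull the cells back; a cell
`s ⊆ convexHull (⋃ par (q i)) ⊆ convexHull (⋃ K i)`; the preimage of a convex hull under a linear bijection is
the convex hull of the preimage.  `C / ε^2 = C * ε ^ (-(2 : ℝ))`. -/
def S_TRANS : Prop := S_INNER → S_VOL → S_PLANE → Admissible 2 2

/-- JOB VN-ONE.  Dimension one: the exponent `1` is admissible, with `v = 1/2`, `C = 1` (or `2`).
Proof.  A convex set `F i ⊆ Fin 1 → ℝ` of volume `1` is an interval (identify `Fin 1 → ℝ` with `ℝ`,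
`MeasureTheory.volume_preserving_funUnique`) and contains a closed interval `I i = [a i, a i + 1/2]`
(an order connected set of measure `1`).  Let `N` be the number of members and `m = ⌈ε N⌉ ≥ 1`.  Order the members
by `a` (a bijection `e : Fin N ≃ ι` with `a (e 0) ≤ a (e 1) ≤ …`, for instance from sorting, `Tuple.sort`), and
take `S = {I (e r) : r + 1 is a multiple of m}`; at most `N / m ≤ 1/ε` sets.  If `G` has at least `ε N` members it has at
least `m` members; let `r1` be the smallest and `r2` the largest rank of a member of `G`; `r2 - r1 + 1 ≥ m`, so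
there is `r ∈ [r1, r2]` with `m ∣ r + 1`, and `I (e r)` lies between `a (e r1)` and `a (e r2) + 1/2`, which are in the
convex hull. -/
def S_ONE : Prop := Admissible 1 1

/-- JOB VN-LOWER.  The (known) lower bound.
Proof.  Let `N ≥ 1`, `ε = 1/N`, `ι = Fin N`, `F i` the unit cube `{x : ∀ k, x k ∈ Icc 0 1}` translated by `2 i` in the
direction of the first coordinate (volume `1`, convex).  For `G = {i}` the hull is the cube `F i`; it contains a
member `s_i` of the net, which is not empty as its volume is `v > 0`; the cubes are disjoint, so the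
`s_i` are different and `N ≤ |S| ≤ C N^α` for all `N ≥ 1`; so `α ≥ 1` (if `α < 1` then `N^(1-α) ≤ C` for all `N`,
impossible). -/
def S_LOWER : Prop := ∀ (d : ℕ) (α : ℝ), 0 < d → Admissible d α → 1 ≤ α

end Pool.Agent.Q165.VN
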